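import Mathlib

/-!
Project MR (helper376): a soft proof that `λ(n) ≠ λ(n+1)` for a positive proportion of all `n`
(at all scales), and Chowla sums of every order bounded away from the trivial bound. Definitions.
-/

set_option autoImplicit false

namespace Pool.Agent.H376R2.MR

open Finset

/-- the Liouville function -/
def lam (n : ℕ) : ℤ := (-1) ^ (ArithmeticFunction.cardFactors n)

/-- the character `x ↦ e^{-ikx}`; `ch k (log n) = n^{-ik}` -/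
noncomputable def ch (k : ℤ) (x : ℝ) : ℂ := Complex.exp (-(k * x : ℝ) * Complex.I)

/-- `e^{iτx}` for real `τ`; `er τ (log n) = n^{iτ}` -/
noncomputable def er (τ x : ℝ) : ℂ := Complex.exp ((τ * x : ℝ) * Complex.I)

/-- tent window -/
noncomputable def w (s : ℝ) : ℝ := max 0 (1 - |s|)

/-- the Dirichlet polynomial `∑_{n ∈ s} a_n n^{-ik}` -/
noncomputable def DP (s : Finset ℕ) (a : ℕ → ℂ) (k : ℤ) : ℂ := ∑ n ∈ s, a n * ch k (Real.log n)

/-- integers of the window around `Y` -/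
noncomputable def WN (Y : ℝ) : Finset ℕ := Icc 1 ⌊Real.exp 1 * Y⌋₊

/-- window coefficients `w(log(n/Y))/n` -/
noncomputable def bw (Y : ℝ) (n : ℕ) : ℝ := w (Real.log n - Real.log Y) / n

/-- `G_Y(k) = ∑ λ(n) w(log(n/Y)) n^{-1-ik}` -/
noncomputable def GG (Y : ℝ) (k : ℤ) : ℂ := DP (WN Y) (fun n => (lam n : ℂ) * (bw Y n : ℂ)) k

/-- primes `p` with `⌊H log p⌋ = v` -/
noncomputable def cell (H v : ℕ) : Finset ℕ :=
  (range (⌊Real.exp (((v : ℝ) + 1) / H)⌋₊ + 1)).filter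
    (fun p => p.Prime ∧ (v : ℝ) / H ≤ Real.log p ∧ Real.log p < ((v : ℝ) + 1) / H)

/-- integers `n` with `v/H ≤ log n < (v+1)/H` -/
noncomputable def nint (H v : ℕ) : Finset ℕ :=
  (range (⌊Real.exp (((v : ℝ) + 1) / H)⌋₊ + 1)).filter
    (fun n => (v : ℝ) / H ≤ Real.log n ∧ Real.log n < ((v : ℝ) + 1) / H)

/-- `P_v(k) = ∑_{p ∈ cell v} p^{-1-ik}` -/
noncomputable def PP (H v : ℕ) (k : ℤ) : ℂ := ∑ p ∈ cell H v, ch k (Real.log p) / (p : ℂ)

/-- `m_v = ∑_{p ∈ cell v} 1/p` -/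
noncomputable def mm (H v : ℕ) : ℝ := ∑ p ∈ cell H v, 1 / (p : ℝ)

/-- `W = ∑_{v₀ ≤ v < v₁} m_v` -/
noncomputable def WW (H v₀ v₁ : ℕ) : ℝ := ∑ v ∈ Ico v₀ v₁, mm H v

/-- frequencies `|k| < K` -/
noncomputable def FK (K : ℕ) : Finset ℤ := Ioo (-(K : ℤ)) K

/-- Fejer kernel `∑_{|k|<K} (1-|k|/K) cos(ku)` -/
noncomputable def Fj (K : ℕ) (u : ℝ) : ℝ :=
  ∑ k ∈ FK K, (1 - |(k : ℝ)| / K) * Real.cos (k * u)

/-- Fejer energy of a Dirichlet polynomial -/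
noncomputable def En (K : ℕ) (s : Finset ℕ) (a : ℕ → ℂ) : ℝ :=
  ∑ k ∈ FK K, (1 - |(k : ℝ)| / K) * ‖DP s a k‖ ^ 2

/-- `k` is small at the level `(H, v₀, v₁)` with exponent `α` -/
def Sm (H v₀ v₁ : ℕ) (α : ℝ) (k : ℤ) : Prop :=
  ∀ v ∈ Ico v₀ v₁, ‖PP H v k‖ ≤ Real.exp (-(α * v / H))

/-- the levels: `L_j = L^(3^j)` -/
def LL (L j : ℕ) : ℕ := L ^ 3 ^ j

/-- the exponents: `a_j = α (1 - 2^{-(j+1)})` -/
noncomputable def aa (α : ℝ) (j : ℕ) : ℝ := α * (1 - 1 / 2 ^ (j + 1))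

/-- `k` is small at the level number `j`: primes between `e^{L_j}` and `e^{L_j^2}`, `H = L_j` -/
def Smj (L : ℕ) (α : ℝ) (j : ℕ) (k : ℤ) : Prop :=
  Sm (LL L j) (LL L j ^ 2) (LL L j ^ 3) (aa α j) k

/-- number of ordered `ℓ`-tuples of elements of `s` whose product divides `n` -/
noncomputable def gd (s : Finset ℕ) (ℓ n : ℕ) : ℕ :=
  ((Fintype.piFinset fun _ : Fin ℓ => s).filter (fun p => (∏ i, p i) ∣ n)).card

/-- number of ordered `ℓ`-tuples of elements of `s` with product `n` -/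
noncomputable def ge (s : Finset ℕ) (ℓ n : ℕ) : ℕ :=
  ((Fintype.piFinset fun _ : Fin ℓ => s).filter (fun p => (∏ i, p i) = n)).card

/-- positive kernel used in the sieve step -/
noncomputable def FR (R : ℕ) (θ : ℝ) : ℝ :=
  ∑ r ∈ FK R, (1 - |(r : ℝ)| / R) * Real.cos (r * θ)

/-- trapezoid: `1` on `[-2,2]`, `0` outside `[-3,3]` -/
noncomputable def Wt (s : ℝ) : ℝ := max 0 (min 1 (3 - |s|))

/-- number of sign changes of `λ` up to `X` -/
noncomputable def chg (X : ℕ) : ℕ := ((Icc 1 X).filter (fun n => lam n ≠ lam (n + 1))).card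

end Pool.Agent.H376R2.MR
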